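import Mathlib

set_option autoImplicit false

namespace Pool.Agent.Results.MP_7e332b_co.AllThreeHeaps

/-- `Move a x y`: under the block `a` (one forbidden amount `a i` for each of the three heaps),
the mover may go from position `x` to position `y`: he removes `r ≥ 1` counters from one heap `i`,
with `r ≠ a i`. -/
def Move (a : Fin 3 → ℕ+) (x y : Fin 3 → ℕ) : Prop :=
  ∃ (i : Fin 3) (r : ℕ), 0 < r ∧ r ≤ x i ∧ r ≠ (a i : ℕ) ∧ y = Function.update x i (x i - r)

/-- `BlockerWins x`: the player about to announce a block at `x` has a winning strategy.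
He announces a block `a`; whenever the opponent makes a move `x → y` allowed by `a` and then
announces any block `b`, he has a reply `y → reply y b` allowed by `b`, after which he is again
the player about to announce a block, in a position he wins.  (If the opponent has no allowed move
the conditions are vacuous: the player who cannot move loses.) -/
inductive BlockerWins : (Fin 3 → ℕ) → Prop
  | intro (x : Fin 3 → ℕ) (a : Fin 3 → ℕ+)
      (reply : (Fin 3 → ℕ) → (Fin 3 → ℕ+) → (Fin 3 → ℕ))
      (legal : ∀ y, Move a x y → ∀ b, Move b y (reply y b))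
      (wins : ∀ y, Move a x y → ∀ b, BlockerWins (reply y b)) : BlockerWins x

/-- The balanced positions. -/
def Bal (x : Fin 3 → ℕ) : Prop := (x 0 / 2) ^^^ (x 1 / 2) ^^^ (x 2 / 2) = 0

/-- A block that works in every balanced position: forbid removing one counter from odd heaps. -/
theorem not_bal_of_move {x y : Fin 3 → ℕ} (hx : Bal x) (h : Move (fun _ => 1) x y) :
    ¬ Bal y := by
  obtain ⟨i, r, h0, h1, h2, rfl⟩ := h
  have hr : 2 ≤ r := by
    have : r ≠ 1 := by simpa using h2
    omega
  have hlt : (x i - r) / 2 < x i / 2 := by omega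
  unfold Bal at hx ⊢
  intro hy
  fin_cases i
  · simp only [Fin.zero_eta, Function.update_self, ne_eq, one_ne_zero, not_false_eq_true,
      Function.update_of_ne, Fin.reduceEq, Fin.isValue] at hy hlt
    rw [Nat.xor_assoc, Nat.xor_eq_zero_iff] at hx hy
    omega
  · simp only [Fin.mk_one, Fin.isValue, ne_eq, zero_ne_one, not_false_eq_true,
      Function.update_of_ne, Function.update_self, Fin.reduceEq] at hy hlt
    rw [Nat.xor_comm (x 0 / 2), Nat.xor_assoc, Nat.xor_eq_zero_iff] at hx hy
    omega
  · simp only [Fin.reduceFinMk, Fin.isValue, ne_eq, Fin.reduceEq, not_false_eq_true,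
      Function.update_of_ne, Function.update_self] at hy hlt
    rw [Nat.xor_eq_zero_iff] at hx hy
    omega

theorem exists_move_aux (b : Fin 3 → ℕ+) (x : Fin 3 → ℕ) (i : Fin 3) (t : ℕ) (ht : t < x i / 2) :
    ∃ v, v / 2 = t ∧ Move b x (Function.update x i v) := by
  by_cases h : x i - 2 * t = (b i : ℕ)
  · refine ⟨2 * t + 1, by omega, i, x i - (2 * t + 1), by omega, by omega, by omega, ?_⟩
    congr 1
    omega
  · refine ⟨2 * t, by omega, i, x i - 2 * t, by omega, by omega, h, ?_⟩
    congr 1
    omega

theorem exists_move_bal {x : Fin 3 → ℕ} (hx : ¬ Bal x) (b : Fin 3 → ℕ+) :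
    ∃ y, Move b x y ∧ Bal y := by
  unfold Bal at hx
  obtain h | h | h := Nat.xor_trichotomy hx
  · obtain ⟨v, hv, hm⟩ := exists_move_aux b x 0 _ h
    refine ⟨_, hm, ?_⟩
    unfold Bal
    simp only [Fin.isValue, Function.update_self, ne_eq, one_ne_zero, not_false_eq_true,
      Function.update_of_ne, Fin.reduceEq, hv]
    rw [Nat.xor_assoc, Nat.xor_self]
  · obtain ⟨v, hv, hm⟩ := exists_move_aux b x 1 _ h
    refine ⟨_, hm, ?_⟩
    unfold Bal
    simp only [Fin.isValue, ne_eq, zero_ne_one, not_false_eq_true,
      Function.update_of_ne, Function.update_self, Fin.reduceEq, hv]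
    rw [Nat.xor_comm (x 2 / 2), Nat.xor_xor_cancel_left, Nat.xor_self]
  · obtain ⟨v, hv, hm⟩ := exists_move_aux b x 2 _ h
    refine ⟨_, hm, ?_⟩
    unfold Bal
    simp only [Fin.isValue, ne_eq, Fin.reduceEq, not_false_eq_true,
      Function.update_of_ne, Function.update_self, hv]
    rw [Nat.xor_self]

theorem sum_lt_of_move {a : Fin 3 → ℕ+} {x y : Fin 3 → ℕ} (h : Move a x y) :
    y 0 + y 1 + y 2 < x 0 + x 1 + x 2 := by
  obtain ⟨i, r, h0, h1, -, rfl⟩ := h
  fin_cases i
  · simp only [Fin.zero_eta, Function.update_self, ne_eq, one_ne_zero, not_false_eq_true,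
      Function.update_of_ne, Fin.reduceEq, Fin.isValue] at h1 ⊢
    omega
  · simp only [Fin.mk_one, Fin.isValue, ne_eq, zero_ne_one, not_false_eq_true,
      Function.update_of_ne, Function.update_self, Fin.reduceEq] at h1 ⊢
    omega
  · simp only [Fin.reduceFinMk, Fin.isValue, ne_eq, Fin.reduceEq, not_false_eq_true,
      Function.update_of_ne, Function.update_self] at h1 ⊢
    omega

theorem wins_of_bal : ∀ (n : ℕ) (x : Fin 3 → ℕ), x 0 + x 1 + x 2 < n → Bal x → BlockerWins x := by
  intro n
  induction n with
  | zero => intro x hx; omega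
  | succ n ih =>
    intro x hx hb
    have key : ∀ (y : Fin 3 → ℕ) (b : Fin 3 → ℕ+), ∃ z, Move (fun _ => 1) x y →
        Move b y z ∧ Bal z := by
      intro y b
      by_cases hm : Move (fun _ => 1) x y
      · obtain ⟨z, hz⟩ := exists_move_bal (not_bal_of_move hb hm) b
        exact ⟨z, fun _ => hz⟩
      · exact ⟨y, fun h => absurd h hm⟩
    choose reply hreply using key
    refine BlockerWins.intro x (fun _ => 1) reply (fun y hy b => (hreply y b hy).1) ?_
    intro y hy b
    have h1 := sum_lt_of_move hy
    have h2 := sum_lt_of_move (hreply y b hy).1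
    exact ih _ (by omega) (hreply y b hy).2

theorem bal_of_wins {x : Fin 3 → ℕ} (h : BlockerWins x) : Bal x := by
  induction h with
  | intro x a reply legal _ ih =>
    by_contra hx
    obtain ⟨y, hm, hy⟩ := exists_move_bal hx a
    exact not_bal_of_move hy (legal y hm _) (ih y hm _)

/-- Three-heap Blocking Nim with a block on all three heaps: the P-positions are exactly the
positions whose halved heap sizes have nim-sum zero. -/
theorem result (x : Fin 3 → ℕ) :
    BlockerWins x ↔ (x 0 / 2) ^^^ (x 1 / 2) ^^^ (x 2 / 2) = 0 :=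
  ⟨bal_of_wins, fun h => wins_of_bal _ x (Nat.lt_succ_self _) h⟩

end Pool.Agent.Results.MP_7e332b_co.AllThreeHeaps
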