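import Pool.Agent.MP_7e332b_co.H90.Basic

/-! Blocks on two of three heaps: every row of P-positions is given by two eventually periodic
offsets of bounded size. -/

namespace Pool.Agent.Results.MP_7e332b_co.TwoHeapRows

open Pool.Agent.MP_7e332b_co.H90

theorem result (x : ℕ) : ∃ (d e : ℕ → ℤ) (p N : ℕ), 0 < p ∧
    (∀ y, N ≤ y → d (y + p) = d y ∧ e (y + p) = e y) ∧
    (∀ y, -((x : ℤ) + 1) ≤ d y ∧ d y < e y ∧ e y ≤ x + 1) ∧
    ∀ y z : ℕ, BlockerWins ![x, y, z] ↔ (z : ℤ) = y + d y ∨ (z : ℤ) = y + e y := by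
  choose u v huv h using two x
  obtain ⟨p, N, hp, hper⟩ := periodic x
  refine ⟨fun y => (u y : ℤ) - y, fun y => (v y : ℤ) - y, p, N, hp, fun y hy => ?_, fun y => ?_,
    fun y z => ?_⟩
  · have a := (h (y + p) (u y + p)).1 ((hper x le_rfl y hy _).1 ((h y _).2 (Or.inl rfl)))
    have b := (h (y + p) (v y + p)).1 ((hper x le_rfl y hy _).1 ((h y _).2 (Or.inr rfl)))
    have := huv y
    have := huv (y + p)
    simp only
    omega
  · have a := band' ((h y _).2 (Or.inl rfl))
    have b := band ((h y _).2 (Or.inr rfl))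
    have := huv y
    simp only
    omega
  · have := h y z
    unfold P at this
    rw [this]
    simp only
    omega

end Pool.Agent.Results.MP_7e332b_co.TwoHeapRows
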